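import Pool.Agent.H.MP_bb4c62_an.helper6.NDefs

/-! Semilinear maps of sl_2 preserving nilpotents (MP_bb4c62_an). -/

namespace Pool.Agent.H.MP_bb4c62_an.helper6.NL

open Complex Metric Set Filter Topology
open Pool.Agent.H.MP_bb4c62_an.helper6.Perturb
open Pool.Agent.H.MP_bb4c62_an.helper6.Gadgets

variable {X : Type*} [NormedAddCommGroup X] [NormedSpace ℂ X]
variable {Y : Type*} [NormedAddCommGroup Y] [NormedSpace ℂ Y]

theorem nsl2_frame (hY : Module.finrank ℂ Y = 2) {y z : Y} (hli : LinearIndependent ℂ ![y, z]) :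
    ∃ g0 g1 : Y →L[ℂ] ℂ, g0 y = 1 ∧ g0 z = 0 ∧ g1 y = 0 ∧ g1 z = 1 ∧
      ∀ w, w = g0 w • y + g1 w • z := by
  obtain ⟨g, hg⟩ := exists_dual_family hli
  have h00 : g 0 y = 1 := by simpa using hg 0 0
  have h01 : g 0 z = 0 := by simpa using hg 0 1
  have h10 : g 1 y = 0 := by simpa using hg 1 0
  have h11 : g 1 z = 1 := by simpa using hg 1 1
  refine ⟨g 0, g 1, h00, h01, h10, h11, fun w => ?_⟩
  have hspan : Submodule.span ℂ (Set.range ![y, z]) = ⊤ :=
    hli.span_eq_top_of_card_eq_finrank (by simp [hY])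
  have hw : w ∈ Submodule.span ℂ (Set.range ![y, z]) := by rw [hspan]; trivial
  rw [Matrix.range_cons, Matrix.range_cons, Matrix.range_empty, Set.union_empty,
    Set.singleton_union, Submodule.mem_span_pair] at hw
  obtain ⟨a, b, rfl⟩ := hw
  simp [h00, h01, h10, h11]

theorem nsl2_frame_exists (hX : Module.finrank ℂ X = 2) :
    ∃ (e0 e1 : X) (f0 f1 : X →L[ℂ] ℂ), f0 e0 = 1 ∧ f0 e1 = 0 ∧ f1 e0 = 0 ∧ f1 e1 = 1 ∧
      ∀ w, w = f0 w • e0 + f1 w • e1 := by
  have hfin : Module.Finite ℂ X := Module.finite_of_finrank_pos (by omega)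
  let b := Module.finBasisOfFinrankEq ℂ X hX
  have hb : LinearIndependent ℂ ![b 0, b 1] := by
    have h := b.linearIndependent
    have h2 : (b : Fin 2 → X) = ![b 0, b 1] := by
      ext i; fin_cases i <;> rfl
    rwa [h2] at h
  obtain ⟨g0, g1, h⟩ := nsl2_frame hX hb
  exact ⟨b 0, b 1, g0, g1, h⟩

theorem nsl2_expand {e0 e1 : X} {f0 f1 : X →L[ℂ] ℂ}
    (h : ∀ w, w = f0 w • e0 + f1 w • e1) {K : X →L[ℂ] X} (hK : K ∈ F0 X) :
    ∃ a b c : ℂ, K = a • ten e0 f1 + b • ten e1 f0 + c • (ten e0 f0 - ten e1 f1) := by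
  unfold F0 at hK
  induction hK using Submodule.span_induction with
  | mem T hT =>
    obtain ⟨x, f, hf, rfl⟩ := hT
    refine ⟨f0 x * f e1, f1 x * f e0, f0 x * f e0, ?_⟩
    have h1 : f0 x * f e0 + f1 x * f e1 = 0 := by
      have h2 := congrArg f (h x)
      rw [hf, map_add, map_smul, map_smul, smul_eq_mul, smul_eq_mul] at h2
      exact h2.symm
    ext w
    have hw : f w = f0 w * f e0 + f1 w * f e1 := by
      conv_lhs => rw [h w]
      rw [map_add, map_smul, map_smul, smul_eq_mul, smul_eq_mul]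
    show f w • x = (f0 x * f e1) • (f1 w • e0) + (f1 x * f e0) • (f0 w • e1) +
      (f0 x * f e0) • (f0 w • e0 - f1 w • e1)
    conv_lhs => rw [h x]
    rw [hw]
    have h3 : f1 x * f e1 = -(f0 x * f e0) := by linear_combination h1
    simp only [smul_add, smul_sub, smul_smul]
    have e1' : (f0 w * f e0 + f1 w * f e1) * f0 x =
      f0 x * f e1 * f1 w + f0 x * f e0 * f0 w := by ring
    have e2' : (f0 w * f e0 + f1 w * f e1) * f1 x =
      f1 x * f e0 * f0 w - f0 x * f e0 * f1 w := by linear_combination f1 w * h3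
    rw [e1', e2']
    module
  | zero => exact ⟨0, 0, 0, by simp⟩
  | add S T _ _ hS hT =>
    obtain ⟨a, b, c, rfl⟩ := hS
    obtain ⟨a', b', c', rfl⟩ := hT
    exact ⟨a + a', b + b', c + c', by module⟩
  | smul r S _ hS =>
    obtain ⟨a, b, c, rfl⟩ := hS
    exact ⟨r * a, r * b, r * c, by module⟩

theorem nsl2_H_mem {e0 e1 : X} {f0 f1 : X →L[ℂ] ℂ} (h00 : f0 e0 = 1) (h01 : f0 e1 = 0)
    (h10 : f1 e0 = 0) (h11 : f1 e1 = 1) : ten e0 f0 - ten e1 f1 ∈ F0 X := by
  have h1 : ten (e0 + e1) (f0 - f1) ∈ F0 X := ten_mem_F0 (by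
    show (f0 - f1) (e0 + e1) = 0
    rw [map_add]
    show (f0 e0 - f1 e0) + (f0 e1 - f1 e1) = 0
    rw [h00, h01, h10, h11]; ring)
  have h2 : ten e0 f1 ∈ F0 X := ten_mem_F0 h10
  have h3 : ten e1 f0 ∈ F0 X := ten_mem_F0 h01
  have h4 : ten e0 f0 - ten e1 f1 = ten (e0 + e1) (f0 - f1) + ten e0 f1 - ten e1 f0 := by
    ext w
    show f0 w • e0 - f1 w • e1 = (f0 w - f1 w) • (e0 + e1) + f1 w • e0 - f0 w • e1
    module
  rw [h4]
  exact Submodule.sub_mem _ (Submodule.add_mem _ h1 h2) h3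

theorem nsl2_sq {e0 e1 : X} {f0 f1 : X →L[ℂ] ℂ} (h00 : f0 e0 = 1) (h01 : f0 e1 = 0)
    (h10 : f1 e0 = 0) (h11 : f1 e1 = 1) (h : ∀ w, w = f0 w • e0 + f1 w • e1) (a b c : ℂ) (w : X) :
    (a • ten e0 f1 + b • ten e1 f0 + c • (ten e0 f0 - ten e1 f1))
      ((a • ten e0 f1 + b • ten e1 f0 + c • (ten e0 f0 - ten e1 f1)) w) =
      (a * b + c * c) • w := by
  have key : ∀ v, (a • ten e0 f1 + b • ten e1 f0 + c • (ten e0 f0 - ten e1 f1)) v =
      a • (f1 v • e0) + b • (f0 v • e1) + c • (f0 v • e0 - f1 v • e1) := fun v => rfl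
  rw [key w, key]
  simp only [map_add, map_sub, map_smul, h00, h01, h10, h11, smul_eq_mul]
  conv_rhs => rw [h w]
  module

theorem nsl2_elim {R : Type*} [Ring R] [Algebra ℂ R] {E F H : R} (hE : E * E = 0) (hF : F * F = 0)
    (h1 : (-E + H + F) * (-E + H + F) = 0) (h2 : (-E - H + F) * (-E - H + F) = 0)
    (h3 : (-E + (2 : ℂ) • H + (4 : ℂ) • F) * (-E + (2 : ℂ) • H + (4 : ℂ) • F) = 0) :
    E * H + H * E = 0 ∧ H * H = E * F + F * E ∧ H * F + F * H = 0 := by
  have i1 : (2 : ℂ) • (H * H - (E * F + F * E)) = 0 := by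
    have : (2 : ℂ) • (H * H - (E * F + F * E)) =
        (-E + H + F) * (-E + H + F) + (-E - H + F) * (-E - H + F) - (2 : ℂ) • (E * E)
          - (2 : ℂ) • (F * F) := by
      simp only [two_smul]
      noncomm_ring
    rw [this, h1, h2, hE, hF]; simp
  have i2 : (2 : ℂ) • ((H * F + F * H) - (E * H + H * E)) = 0 := by
    have : (2 : ℂ) • ((H * F + F * H) - (E * H + H * E)) =
        (-E + H + F) * (-E + H + F) - (-E - H + F) * (-E - H + F) := by
      simp only [two_smul]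
      noncomm_ring
    rw [this, h1, h2]; simp
  have j1 : H * H - (E * F + F * E) = 0 := (smul_eq_zero.1 i1).resolve_left (by norm_num)
  have j2 : (H * F + F * H) - (E * H + H * E) = 0 := (smul_eq_zero.1 i2).resolve_left (by norm_num)
  have i3 : (-E + (2 : ℂ) • H + (4 : ℂ) • F) * (-E + (2 : ℂ) • H + (4 : ℂ) • F) =
      E * E + (4 : ℂ) • (H * H - (E * F + F * E)) + (8 : ℂ) • ((H * F + F * H) - (E * H + H * E))
        + (6 : ℂ) • (E * H + H * E) + (16 : ℂ) • (F * F) := by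
    simp only [add_mul, mul_add, neg_mul, mul_neg, smul_mul_assoc, mul_smul_comm]
    module
  rw [h3, hE, hF, j1, j2] at i3
  have i4 : (6 : ℂ) • (E * H + H * E) = 0 := by simpa using i3.symm
  have j3 : E * H + H * E = 0 := (smul_eq_zero.1 i4).resolve_left (by norm_num)
  refine ⟨j3, sub_eq_zero.1 j1, ?_⟩
  rw [j3, sub_zero] at j2
  exact j2

theorem sl2_std (hX : Module.finrank ℂ X = 2) (hY : Module.finrank ℂ Y = 2)
    (τ : ℂ ≃+* ℂ) (α : (X →L[ℂ] X) → (Y →L[ℂ] Y))
    (hmap : ∀ K ∈ F0 X, α K ∈ F0 Y)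
    (hadd : ∀ K ∈ F0 X, ∀ L ∈ F0 X, α (K + L) = α K + α L)
    (hsmul : ∀ a : ℂ, ∀ K ∈ F0 X, α (a • K) = τ a • α K)
    (hinj : ∀ K ∈ F0 X, α K = 0 → K = 0)
    (hq : ∀ K ∈ F0 X, K * K = 0 → α K * α K = 0) :
    ∃ (c : ℂ) (S : X ≃+ Y), c ≠ 0 ∧ (∀ (a : ℂ) x, S (a • x) = τ a • S x) ∧
      ∀ K ∈ F0 X, ∀ x, α K (S x) = c • S (K x) := by
  obtain ⟨e0, e1, f0, f1, h00, h01, h10, h11, hx⟩ := nsl2_frame_exists hX
  obtain ⟨u0, u1, k0, k1, l00, l01, l10, l11, hy⟩ := nsl2_frame_exists hY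
  set E : X →L[ℂ] X := ten e0 f1 with hE
  set F : X →L[ℂ] X := ten e1 f0 with hF
  set H : X →L[ℂ] X := ten e0 f0 - ten e1 f1 with hH
  have mE : E ∈ F0 X := ten_mem_F0 h10
  have mF : F ∈ F0 X := ten_mem_F0 h01
  have mH : H ∈ F0 X := nsl2_H_mem h00 h01 h10 h11
  set E' := α E with hE'
  set F' := α F with hF'
  set H' := α H with hH'
  have hcomb : ∀ a b c : ℂ, a • E + b • F + c • H ∈ F0 X := fun a b c =>
    Submodule.add_mem _ (Submodule.add_mem _ (Submodule.smul_mem _ _ mE)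
      (Submodule.smul_mem _ _ mF)) (Submodule.smul_mem _ _ mH)
  have hα : ∀ a b c : ℂ, α (a • E + b • F + c • H) = τ a • E' + τ b • F' + τ c • H' := by
    intro a b c
    rw [hadd _ (Submodule.add_mem _ (Submodule.smul_mem _ _ mE) (Submodule.smul_mem _ _ mF)) _
      (Submodule.smul_mem _ _ mH), hadd _ (Submodule.smul_mem _ _ mE) _
      (Submodule.smul_mem _ _ mF), hsmul _ _ mE, hsmul _ _ mF, hsmul _ _ mH]
  have hsq : ∀ a b c : ℂ, a * b + c * c = 0 →
      (τ a • E' + τ b • F' + τ c • H') * (τ a • E' + τ b • F' + τ c • H') = 0 := by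
    intro a b c habc
    rw [← hα]
    apply hq _ (hcomb a b c)
    ext w
    have := nsl2_sq h00 h01 h10 h11 hx a b c w
    rw [habc, zero_smul] at this
    exact this
  have sE : E' * E' = 0 := by
    have := hsq 1 0 0 (by ring)
    simpa using this
  have sF : F' * F' = 0 := by
    have := hsq 0 1 0 (by ring)
    simpa using this
  have t2 : τ 2 = 2 := map_ofNat τ 2
  have t4 : τ 4 = 4 := map_ofNat τ 4
  have tn : τ (-1) = -1 := by rw [map_neg, map_one]
  obtain ⟨r1, r2, r3⟩ := nsl2_elim sE sF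
    (by
      have := hsq (-1) 1 1 (by ring)
      rw [tn, map_one] at this
      have h5 : (-1 : ℂ) • E' + (1 : ℂ) • F' + (1 : ℂ) • H' = -E' + H' + F' := by module
      rwa [h5] at this)
    (by
      have := hsq (-1) 1 (-1) (by ring)
      rw [tn, map_one] at this
      have h5 : (-1 : ℂ) • E' + (1 : ℂ) • F' + (-1 : ℂ) • H' = -E' - H' + F' := by module
      rwa [h5] at this)
    (by
      have := hsq (-1) 4 2 (by ring)
      rw [tn, t2, t4] at this
      have h5 : (-1 : ℂ) • E' + (4 : ℂ) • F' + (2 : ℂ) • H' =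
        -E' + (2 : ℂ) • H' + (4 : ℂ) • F' := by module
      rwa [h5] at this)
  -- pointwise versions
  have pE : ∀ w, E' (E' w) = 0 := fun w => by
    have := congrArg (fun T : Y →L[ℂ] Y => T w) sE; exact this
  have pF : ∀ w, F' (F' w) = 0 := fun w => by
    have := congrArg (fun T : Y →L[ℂ] Y => T w) sF; exact this
  have pEH : ∀ w, E' (H' w) + H' (E' w) = 0 := fun w => by
    have := congrArg (fun T : Y →L[ℂ] Y => T w) r1; exact this
  have pHH : ∀ w, H' (H' w) = E' (F' w) + F' (E' w) := fun w => by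
    have := congrArg (fun T : Y →L[ℂ] Y => T w) r2; exact this
  have pHF : ∀ w, H' (F' w) + F' (H' w) = 0 := fun w => by
    have := congrArg (fun T : Y →L[ℂ] Y => T w) r3; exact this
  -- the square of H'
  obtain ⟨a', b', c', hH'e⟩ := nsl2_expand hy (hmap H mH)
  set d : ℂ := a' * b' + c' * c' with hd
  have hdd : ∀ w, H' (H' w) = d • w := by
    intro w
    have := nsl2_sq l00 l01 l10 l11 hy a' b' c' w
    rw [← hH'e] at this
    exact this
  -- E' ≠ 0
  have hE0 : E' ≠ 0 := by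
    intro h0
    have h1 := hinj E mE h0
    have h2 : E e1 = 0 := by rw [h1]; rfl
    have h3 : E e1 = e0 := by
      show f1 e1 • e0 = e0
      rw [h11, one_smul]
    rw [h3] at h2
    rw [h2, map_zero] at h00
    exact zero_ne_one h00
  obtain ⟨z, hz⟩ : ∃ z, E' z ≠ 0 := by
    by_contra hcon
    push Not at hcon
    exact hE0 (ContinuousLinearMap.ext hcon)
  set y0 : Y := E' z with hy0
  have hEy0 : E' y0 = 0 := pE z
  have hli : LinearIndependent ℂ ![y0, z] := by
    rw [LinearIndependent.pair_iff]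
    intro s t hst
    have h1 := congrArg E' hst
    rw [map_add, map_smul, map_smul, hEy0, smul_zero, zero_add, map_zero] at h1
    have ht : t = 0 := (smul_eq_zero.1 h1).resolve_right hz
    rw [ht, zero_smul, add_zero] at hst
    exact ⟨(smul_eq_zero.1 hst).resolve_right hz, ht⟩
  obtain ⟨p0, p1, -, -, -, -, hp⟩ := nsl2_frame hY hli
  -- H' y0 = ν y0
  obtain ⟨ν, hν⟩ : ∃ ν : ℂ, H' y0 = ν • y0 := by
    have h1 := pEH y0
    rw [hEy0, map_zero, add_zero] at h1
    have h2 := hp (H' y0)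
    rw [h2, map_add, map_smul, map_smul, hEy0, smul_zero, zero_add] at h1
    have h3 : p1 (H' y0) = 0 := (smul_eq_zero.1 h1).resolve_right hz
    rw [h3, zero_smul, add_zero] at h2
    exact ⟨_, h2⟩
  have hνd : ν * ν = d := by
    have h1 := hdd y0
    rw [hν, map_smul, hν, smul_smul] at h1
    have h2 : (ν * ν - d) • y0 = 0 := by rw [sub_smul, h1, sub_self]
    exact sub_eq_zero.1 ((smul_eq_zero.1 h2).resolve_right hz)
  -- ν ≠ 0
  have hν0 : ν ≠ 0 := by
    intro h0
    have hHy0 : H' y0 = 0 := by rw [hν, h0, zero_smul]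
    -- H' z = r z + s y0
    have h2 := hp (H' z)
    have h1 := pEH z
    rw [h2, map_add, map_smul, map_smul, hEy0, smul_zero, zero_add] at h1
    have h3 : H' (E' z) = 0 := hHy0
    rw [h3, add_zero] at h1
    have h4 : p1 (H' z) = 0 := (smul_eq_zero.1 h1).resolve_right hz
    rw [h4, zero_smul, add_zero] at h2
    set s := p0 (H' z) with hs
    have hHE : H' = s • E' := by
      ext w
      rw [hp w]
      simp only [map_add, map_smul]
      rw [hHy0, h2]
      show p0 w • (0 : Y) + p1 w • s • y0 = p0 w • (s • E' y0) + p1 w • (s • y0)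
      simp only [hEy0, smul_zero]
    have h5 : α ((-(τ.symm s)) • E + (0 : ℂ) • F + (1 : ℂ) • H) = 0 := by
      rw [hα, map_neg, RingEquiv.apply_symm_apply, map_zero, map_one, hHE]
      module
    have h6 := hinj _ (hcomb _ _ _) h5
    have h7 := congrArg (fun T : X →L[ℂ] X => T e0) h6
    have h8 : ((-(τ.symm s)) • E + (0 : ℂ) • F + (1 : ℂ) • H) e0 =
        (-(τ.symm s)) • (f1 e0 • e0) + (0 : ℂ) • (f0 e0 • e1) +
          (1 : ℂ) • (f0 e0 • e0 - f1 e0 • e1) := rfl
    have h9 : ((-(τ.symm s)) • E + (0 : ℂ) • F + (1 : ℂ) • H) e0 = 0 := h7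
    rw [h8, h00, h10] at h9
    have h10' : e0 = 0 := by simpa using h9
    rw [h10', map_zero] at h00
    exact zero_ne_one h00
  set y1 : Y := ν⁻¹ • F' y0 with hy1
  have hFy0 : F' y0 = ν • y1 := by rw [hy1, smul_smul, mul_inv_cancel₀ hν0, one_smul]
  have hFy1 : F' y1 = 0 := by rw [hy1, map_smul, pF, smul_zero]
  have hEy1 : E' y1 = ν • y0 := by
    have h1 := pHH y0
    rw [hEy0, map_zero, add_zero, hν, map_smul, hν] at h1
    rw [hy1, map_smul, ← h1, smul_smul, inv_mul_cancel₀ hν0, one_smul]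
  have hHy1 : H' y1 = -(ν • y1) := by
    have h1 := pHF y0
    rw [hν, map_smul] at h1
    have h2 : H' (F' y0) = -(ν • F' y0) := eq_neg_of_add_eq_zero_left h1
    rw [hy1, map_smul, h2, smul_neg, smul_comm]
  have hli2 : LinearIndependent ℂ ![y0, y1] := by
    rw [LinearIndependent.pair_iff]
    intro s t hst
    have h1 := congrArg E' hst
    rw [map_add, map_smul, map_smul, hEy0, smul_zero, zero_add, map_zero, hEy1, smul_smul] at h1
    have ht : t = 0 := by
      have := (smul_eq_zero.1 h1).resolve_right hz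
      exact (mul_eq_zero.1 this).resolve_right hν0
    rw [ht, zero_smul, add_zero] at hst
    exact ⟨(smul_eq_zero.1 hst).resolve_right hz, ht⟩
  obtain ⟨g0, g1, q00, q01, q10, q11, hg⟩ := nsl2_frame hY hli2
  let S : X ≃+ Y :=
    { toFun := fun x => τ (f0 x) • y0 + τ (f1 x) • y1
      invFun := fun y => τ.symm (g0 y) • e0 + τ.symm (g1 y) • e1
      left_inv := by
        intro x
        show τ.symm (g0 (τ (f0 x) • y0 + τ (f1 x) • y1)) • e0 +
          τ.symm (g1 (τ (f0 x) • y0 + τ (f1 x) • y1)) • e1 = x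
        simp only [map_add, map_smul, q00, q01, q10, q11, smul_eq_mul, mul_one, mul_zero,
          add_zero, zero_add, RingEquiv.symm_apply_apply]
        exact (hx x).symm
      right_inv := by
        intro y
        show τ (f0 (τ.symm (g0 y) • e0 + τ.symm (g1 y) • e1)) • y0 +
          τ (f1 (τ.symm (g0 y) • e0 + τ.symm (g1 y) • e1)) • y1 = y
        simp only [map_add, map_smul, h00, h01, h10, h11, smul_eq_mul, mul_one, mul_zero,
          add_zero, zero_add, RingEquiv.apply_symm_apply]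
        exact (hg y).symm
      map_add' := by
        intro x x'
        show τ (f0 (x + x')) • y0 + τ (f1 (x + x')) • y1 =
          (τ (f0 x) • y0 + τ (f1 x) • y1) + (τ (f0 x') • y0 + τ (f1 x') • y1)
        simp only [map_add]
        module }
  have hS : ∀ x, S x = τ (f0 x) • y0 + τ (f1 x) • y1 := fun x => rfl
  refine ⟨ν, S, hν0, fun a x => ?_, fun K hK x => ?_⟩
  · have i0 : f0 (a • x) = a * f0 x := f0.map_smul a x
    have i1 : f1 (a • x) = a * f1 x := f1.map_smul a x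
    rw [hS, hS, i0, i1, map_mul, map_mul]
    module
  · obtain ⟨a, b, c, rfl⟩ := nsl2_expand hx hK
    have h1 : α (a • ten e0 f1 + b • ten e1 f0 + c • (ten e0 f0 - ten e1 f1)) =
      τ a • E' + τ b • F' + τ c • H' := hα a b c
    rw [h1, hS, hS]
    have h2 : (a • ten e0 f1 + b • ten e1 f0 + c • (ten e0 f0 - ten e1 f1)) x =
      a • (f1 x • e0) + b • (f0 x • e1) + c • (f0 x • e0 - f1 x • e1) := rfl
    have h3 : ∀ w, (τ a • E' + τ b • F' + τ c • H') w = τ a • E' w + τ b • F' w + τ c • H' w :=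
      fun w => rfl
    rw [h2, h3]
    simp only [map_add, map_sub, map_smul, smul_eq_mul, map_mul, h00, h01, h10, h11, hEy0, hEy1,
      hFy0, hFy1, hν, hHy1, map_zero, mul_one, mul_zero]
    module

end Pool.Agent.H.MP_bb4c62_an.helper6.NL
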